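import Pool.Agent.Helper44.GE.Mass

/-!
# GE, block E7: the points at which the criterion fails have small mass, second part
-/

set_option autoImplicit false
open MeasureTheory Set Filter Topology
open Pool.Agent.Helper78.KD
open Pool.Agent.Helper18.KD (par idx pt pt_mem vol_idx idx_lt pt_mono len_pos t_mono)
open Pool.Agent.Helper82.FK (e)
open Pool.Agent.Helper18.GP (gp nm)
open Pool.Agent.Helper87.GP (Z fz cut S mem_S Z_abs Z_last cut_nonneg cut_le_one cut_le continuous_cut continuous_fz pow_lip)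

namespace Pool.Agent.Helper44.GE

open Pool.Agent.GE

/-- the level at which the cells are short enough -/
theorem level {a α ε C X κ : ℝ} (ha : 1 < a) (hα : 1 < α) (hC : 0 ≤ C) (hX : 1 ≤ X) (hκ : 0 ≤ κ) (hε : 0 ≤ ε)
    {nk : ℕ → ℕ} (h0 : nk 0 = 0) (hn : Tendsto nk atTop atTop)
    (hr : ∀ k, (nk (k + 1) : ℝ) ≤ (1 + ε) * nk k + C) :
    ∃ k, X ≤ α ^ (nk k) ∧ a ^ (κ * nk k) ≤ a ^ (κ * C) * X ^ (κ * (1 + ε) * (Real.log a / Real.log α)) := by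
  classical
  have ha0 : 0 < a := by linarith
  have hα0 : 0 < α := by linarith
  have hla : 0 < Real.log a := Real.log_pos ha
  have hlα : 0 < Real.log α := Real.log_pos hα
  have hp : 0 ≤ κ * (1 + ε) * (Real.log a / Real.log α) := by positivity
  have hex : ∃ k, X ≤ α ^ (nk k) := by
    have h1 : Tendsto (fun k => α ^ (nk k)) atTop atTop := (tendsto_pow_atTop_atTop_of_one_lt hα).comp hn
    exact (h1.eventually_ge_atTop X).exists
  have hspec := Nat.find_spec hex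
  refine ⟨Nat.find hex, hspec, ?_⟩
  rcases Nat.eq_zero_or_pos (Nat.find hex) with hk | hk
  · rw [hk, h0, Nat.cast_zero, mul_zero, Real.rpow_zero]
    have h1 : 1 ≤ a ^ (κ * C) := Real.one_le_rpow ha.le (by positivity)
    have h2 : 1 ≤ X ^ (κ * (1 + ε) * (Real.log a / Real.log α)) := Real.one_le_rpow hX hp
    nlinarith
  · obtain ⟨k', hk'⟩ : ∃ k', Nat.find hex = k' + 1 := ⟨Nat.find hex - 1, by omega⟩
    rw [hk']
    have h1 : ¬ X ≤ α ^ (nk k') := Nat.find_min hex (by omega)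
    push Not at h1
    have h2 := hr k'
    have h3 : a ^ (κ * (nk (k' + 1) : ℝ)) ≤ a ^ (κ * C + κ * (1 + ε) * nk k') := by
      refine Real.rpow_le_rpow_of_exponent_le ha.le ?_
      have := mul_le_mul_of_nonneg_left h2 hκ
      nlinarith
    refine h3.trans ?_
    rw [Real.rpow_add ha0]
    refine mul_le_mul_of_nonneg_left ?_ (Real.rpow_nonneg ha0.le _)
    have h4 : a ^ (κ * (1 + ε) * nk k') = (α ^ (nk k')) ^ (κ * (1 + ε) * (Real.log a / Real.log α)) := by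
      rw [Real.rpow_def_of_pos ha0, Real.rpow_def_of_pos (by positivity), Real.log_pow]
      congr 1
      field_simp
    rw [h4]
    exact Real.rpow_le_rpow (by positivity) h1.le hp

/-- the bound for sublevel sets (block E1) -/
def SubE (a b : ℝ) (H : ℕ) : Prop := ∀ H' : ℝ, ∃ C : ℝ, 0 < C ∧
    ∀ (M : ℕ) (d : ℕ → ℝ), 1 ≤ |d M| → (∀ i ≤ M, |d i| ≤ H') → (∀ i ≤ M, ∀ j ≤ M, i ≠ j → |d i| ≤ H ∨ |d j| ≤ H) →
    ∀ ρ : ℝ, 0 < ρ → volume {x : ℝ | x ∈ Icc a b ∧ |∑ i ∈ Finset.range (M + 1), d i * x ^ i| ≤ ρ} ≤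
      ENNReal.ofReal (C * (ρ * a ^ (-(M : ℝ))) ^ (1 / ((KE a H : ℝ) + 1)))

/-- sublevel sets of the polynomials of the strings with a nonzero weight -/
theorem sub_string {a b : ℝ} {H Hb : ℕ} {C : ℝ}
    (hC : ∀ (M : ℕ) (d : ℕ → ℝ), 1 ≤ |d M| → (∀ i ≤ M, |d i| ≤ (Hb : ℝ)) →
      (∀ i ≤ M, ∀ j ≤ M, i ≠ j → |d i| ≤ H ∨ |d j| ≤ H) →
      ∀ ρ : ℝ, 0 < ρ → volume {x : ℝ | x ∈ Icc a b ∧ |∑ i ∈ Finset.range (M + 1), d i * x ^ i| ≤ ρ} ≤
        ENNReal.ofReal (C * (ρ * a ^ (-(M : ℝ))) ^ (1 / ((KE a H : ℝ) + 1))))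
    {c : ℤ → ℂ} {h : ℤ} {j t : ℕ} {β : Fin (t + 1) → ℤ} (hβ : β ∈ Z Hb t) (hw : wE H c h j β ≠ 0) {ρ : ℝ} (hρ : 0 < ρ) :
    volume {x : ℝ | x ∈ Icc a b ∧ |fz β x| ≤ ρ} ≤
      ENNReal.ofReal (C * (ρ * a ^ (-(t : ℝ))) ^ (1 / ((KE a H : ℝ) + 1))) := by
  set d : ℕ → ℝ := fun i => if hi : i < t + 1 then (β ⟨i, hi⟩ : ℝ) else 0 with hd
  have h1 : 1 ≤ |d t| := by
    have h2 : d t = (β (Fin.last t) : ℝ) := by
      simp only [hd, dif_pos (Nat.lt_succ_self t)]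
      rfl
    rw [h2]
    exact Z_last hβ
  have h2 : ∀ i ≤ t, |d i| ≤ (Hb : ℝ) := fun i hi => by
    simp only [hd, dif_pos (Nat.lt_succ_of_le hi)]
    exact Z_abs hβ _
  have h3 : ∀ x : ℝ, ∑ i ∈ Finset.range (t + 1), d i * x ^ i = fz β x := fun x => by
    unfold fz
    rw [Finset.sum_range]
    refine Finset.sum_congr rfl fun i _ => ?_
    simp only [hd, dif_pos i.2, Fin.eta]
  have h4 : ∀ i ≤ t, i ≠ j → |d i| ≤ H := fun i hi hij => by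
    simp only [hd, dif_pos (Nat.lt_succ_of_le hi)]
    exact wE_small hw ⟨i, Nat.lt_succ_of_le hi⟩ hij
  have h5 : ∀ i ≤ t, ∀ j' ≤ t, i ≠ j' → |d i| ≤ H ∨ |d j'| ≤ H := by
    intro i hi j' hj' hij
    by_cases h6 : i = j
    · right
      exact h4 j' hj' (by rw [← h6]; exact Ne.symm hij)
    · left
      exact h4 i hi h6
  have h6 := hC t d h1 h2 h5 ρ hρ
  simp_rw [h3] at h6
  exact h6

/-- the integral of one string -/
theorem string_int {a b α ε C X Cl Cm Cε C₁ : ℝ} (ha : 1 < a) (hab : a < b) (haα : a ≤ α) {H Hb : ℕ}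
    (hCε : ∀ t : ℕ, ((t : ℝ) + 1) ^ 2 ≤ Cε * (1 + ε) ^ t) (hCε1 : 1 ≤ Cε) (hε : 0 < ε) (hC : 0 ≤ C) (hCl : 1 ≤ Cl) (hCm : 0 ≤ Cm)
    (hC₁ : ∀ (M : ℕ) (d : ℕ → ℝ), 1 ≤ |d M| → (∀ i ≤ M, |d i| ≤ (Hb : ℝ)) →
      (∀ i ≤ M, ∀ j ≤ M, i ≠ j → |d i| ≤ H ∨ |d j| ≤ H) →
      ∀ ρ : ℝ, 0 < ρ → volume {x : ℝ | x ∈ Icc a b ∧ |∑ i ∈ Finset.range (M + 1), d i * x ^ i| ≤ ρ} ≤
        ENNReal.ofReal (C₁ * (ρ * a ^ (-(M : ℝ))) ^ (1 / ((KE a H : ℝ) + 1))))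
    {T : Tr} {m : ℕ → ℕ → ℝ} {nk : ℕ → ℕ} (hm : Ms T m) (hT : ∀ k i, i ≤ T.N k → T.t k i ∈ Icc α b) (h0 : nk 0 = 0)
    (hn : Tendsto nk atTop atTop) (hr : ∀ k, (nk (k + 1) : ℝ) ≤ (1 + ε) * nk k + C)
    (hlen : ∀ k i, i < T.N k → T.len k i ≤ Cl * (α ^ (nk k))⁻¹)
    (hmass : ∀ k i, i < T.N k → m k i ≤ Cm * T.len k i * a ^ (kE a H * nk k))
    {c : ℤ → ℂ} {h : ℤ} {j J t : ℕ} {β : Fin (t + 1) → ℤ} (hβ : β ∈ Z Hb t) (hw : wE H c h j β ≠ 0)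
    (hX : X = ((Hb : ℝ) + 1) * Cε * Cl * ((1 + ε) * b) ^ t * a ^ ((J : ℝ) / 2)) :
    ∫⁻ w in Ico (0 : ℝ) 1, ENNReal.ofReal (cut ((a ^ J)⁻¹) (fz β (pt T m w))) ≤
      ENNReal.ofReal (Cm * (a ^ (kE a H * C) * X ^ (kE a H * (1 + ε) * (Real.log a / Real.log α)))) *
        ENNReal.ofReal (C₁ * (2 * a ^ (((t : ℝ) - J) / 2) * a ^ (-(t : ℝ))) ^ (1 / ((KE a H : ℝ) + 1))) +
      ENNReal.ofReal (a ^ (-((t : ℝ) + J) / 2)) := by
  have ha0 : 0 < a := by linarith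
  have hα : 1 < α := lt_of_lt_of_le ha haα
  have hb1 : 1 < b := ha.trans hab
  have hb0 : 0 < b := by linarith
  set η : ℝ := (a ^ J)⁻¹ with hη
  have hη0 : 0 < η := by positivity
  set τ : ℝ := a ^ (((t : ℝ) - J) / 2) with hτ
  have hτ0 : 0 < τ := Real.rpow_pos_of_pos ha0 _
  have hη2 : η = a ^ (-(J : ℝ)) := by rw [hη, Real.rpow_neg ha0.le, Real.rpow_natCast]
  have ht0 : (0 : ℝ) ≤ t := Nat.cast_nonneg t
  have hJ0 : (0 : ℝ) ≤ J := Nat.cast_nonneg J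
  have hητ : η ≤ τ := by
    rw [hη2, hτ]
    exact Real.rpow_le_rpow_of_exponent_le ha.le (by linarith)
  have hητ2 : η / τ = a ^ (-((t : ℝ) + J) / 2) := by
    rw [hη2, hτ, ← Real.rpow_sub ha0]
    congr 1
    ring
  have hkE0 : 0 ≤ kE a H := by unfold kE; positivity
  have hKb : (1 : ℝ) ≤ (Hb : ℝ) + 1 := by linarith [(Nat.cast_nonneg Hb : (0 : ℝ) ≤ Hb)]
  have h1b : 1 ≤ (1 + ε) * b := by nlinarith
  have hX1 : 1 ≤ X := by
    rw [hX]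
    have g1 : 1 ≤ ((Hb : ℝ) + 1) * Cε := one_le_mul_of_one_le_of_one_le hKb hCε1
    have g2 : 1 ≤ ((Hb : ℝ) + 1) * Cε * Cl := one_le_mul_of_one_le_of_one_le g1 hCl
    have g3 : 1 ≤ ((1 + ε) * b) ^ t := one_le_pow₀ h1b
    have g4 : 1 ≤ a ^ ((J : ℝ) / 2) := Real.one_le_rpow ha.le (by positivity)
    exact one_le_mul_of_one_le_of_one_le (one_le_mul_of_one_le_of_one_le g2 g3) g4
  obtain ⟨k, hk1, hk2⟩ := level (κ := kE a H) ha hα hC hX1 hkE0 hε.le h0 hn hr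
  -- the indicator
  have h1 : ∫⁻ w in Ico (0 : ℝ) 1, ENNReal.ofReal (cut η (fz β (pt T m w))) ≤
      ∫⁻ w in Ico (0 : ℝ) 1, (({w : ℝ | |fz β (pt T m w)| ≤ τ}.indicator (fun _ => (1 : ENNReal)) w) +
        ENNReal.ofReal (η / τ)) := by
    refine lintegral_mono fun w => ?_
    exact cut_le hη0 hητ (fz β (pt T m w))
  refine h1.trans ?_
  have hms : MeasurableSet {w : ℝ | |fz β (pt T m w)| ≤ τ} :=
    measurableSet_le ((continuous_fz β).measurable.comp (pt_mono (T := T) (m := m)).measurable).abs measurable_const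
  rw [lintegral_add_right _ measurable_const, lintegral_indicator hms, setLIntegral_const, setLIntegral_const, one_mul,
    Measure.restrict_apply hms, Real.volume_Ico, sub_zero, ENNReal.ofReal_one, mul_one, hητ2]
  refine add_le_add ?_ le_rfl
  have h2 : {w : ℝ | |fz β (pt T m w)| ≤ τ} ∩ Ico (0 : ℝ) 1 = {w : ℝ | w ∈ Ico (0 : ℝ) 1 ∧ |fz β (pt T m w)| ≤ τ} := by
    ext x
    exact and_comm
  rw [h2]
  have hE0 : 0 ≤ Cm * (a ^ (kE a H * C) * X ^ (kE a H * (1 + ε) * (Real.log a / Real.log α))) := by positivity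
  have h3 := mass_sub hm k (f := fz β) (τ := τ) hE0
    (G := {x : ℝ | x ∈ Icc a b ∧ |fz β x| ≤ 2 * τ}) ?_ ?_
  · refine h3.trans ?_
    refine mul_le_mul_right (sub_string hC₁ hβ hw (by positivity)) _
  · intro i hi hex x hx
    obtain ⟨y, hy, hfy⟩ := hex
    have hti := hT k i hi.le
    have hti1 := hT k (i + 1) hi
    have hx1 : α ≤ x ∧ x ≤ b := ⟨hti.1.trans hx.1, hx.2.trans hti1.2⟩
    have hy1 : α ≤ y ∧ y ≤ b := ⟨hti.1.trans hy.1, hy.2.trans hti1.2⟩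
    refine ⟨⟨haα.trans hx1.1, hx1.2⟩, ?_⟩
    have h4 := fz_diff hb1.le (Z_abs hβ) (x := x) (y := y) (by linarith [hx1.1]) hx1.2 (by linarith [hy1.1]) hy1.2
    have h5 : |x - y| ≤ Cl * (α ^ (nk k))⁻¹ := by
      have h6 : |x - y| ≤ T.len k i := by
        unfold Tr.len
        rw [abs_le]
        constructor <;> linarith [hx.1, hx.2, hy.1, hy.2]
      exact h6.trans (hlen k i hi)
    have hα0 : 0 < α ^ (nk k) := by positivity
    have h6 : (Hb : ℝ) * ((t : ℝ) + 1) ^ 2 * b ^ t * |x - y| ≤ τ := by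
      have h7 : (Hb : ℝ) * ((t : ℝ) + 1) ^ 2 * b ^ t * |x - y| ≤
          ((Hb : ℝ) + 1) * (Cε * (1 + ε) ^ t) * b ^ t * (Cl * (α ^ (nk k))⁻¹) := by
        have h8 := hCε t
        have h9 : (Hb : ℝ) ≤ (Hb : ℝ) + 1 := by linarith
        gcongr
      have h8 : ((Hb : ℝ) + 1) * (Cε * (1 + ε) ^ t) * b ^ t * (Cl * (α ^ (nk k))⁻¹) =
          X * a ^ (-(J : ℝ) / 2) * (α ^ (nk k))⁻¹ := by
        have h9 : a ^ ((J : ℝ) / 2) * a ^ (-(J : ℝ) / 2) = 1 := by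
          rw [← Real.rpow_add ha0, show (J : ℝ) / 2 + -(J : ℝ) / 2 = 0 by ring, Real.rpow_zero]
        rw [hX, mul_pow]
        calc _ = ((Hb : ℝ) + 1) * Cε * Cl * ((1 + ε) ^ t * b ^ t) * 1 * (α ^ nk k)⁻¹ := by ring
          _ = ((Hb : ℝ) + 1) * Cε * Cl * ((1 + ε) ^ t * b ^ t) * (a ^ ((J : ℝ) / 2) * a ^ (-(J : ℝ) / 2)) *
              (α ^ nk k)⁻¹ := by rw [h9]
          _ = _ := by ring
      have h9 : X * a ^ (-(J : ℝ) / 2) * (α ^ (nk k))⁻¹ ≤ a ^ (-(J : ℝ) / 2) := by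
        have h10 : X * (α ^ (nk k))⁻¹ ≤ 1 := by
          rw [← div_eq_mul_inv, div_le_one hα0]
          exact hk1
        have h11 : 0 < a ^ (-(J : ℝ) / 2) := Real.rpow_pos_of_pos ha0 _
        calc X * a ^ (-(J : ℝ) / 2) * (α ^ (nk k))⁻¹ = (X * (α ^ (nk k))⁻¹) * a ^ (-(J : ℝ) / 2) := by ring
          _ ≤ 1 * a ^ (-(J : ℝ) / 2) := by gcongr
          _ = _ := one_mul _
      have h10 : a ^ (-(J : ℝ) / 2) ≤ τ := by
        rw [hτ]
        exact Real.rpow_le_rpow_of_exponent_le ha.le (by linarith)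
      rw [h8] at h7
      exact h7.trans (h9.trans h10)
    have h7 : |fz β x| ≤ |fz β x - fz β y| + |fz β y| := by
      have := abs_add_le (fz β x - fz β y) (fz β y)
      simpa using this
    linarith
  · intro i hi
    refine (hmass k i hi).trans ?_
    have h4 := (len_pos T k hi).le
    calc Cm * T.len k i * a ^ (kE a H * nk k) = Cm * a ^ (kE a H * nk k) * T.len k i := by ring
      _ ≤ Cm * (a ^ (kE a H * C) * X ^ (kE a H * (1 + ε) * (Real.log a / Real.log α))) * T.len k i := by gcongr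

end Pool.Agent.Helper44.GE
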