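import Pool.Agent.Helper44.GE.Crit

/-!
# GE, block E7: the points at which the criterion fails have small mass, conclusion
-/

set_option autoImplicit false
open MeasureTheory Set Filter Topology
open Pool.Agent.Helper78.KD
open Pool.Agent.Helper18.KD (par idx pt pt_mem vol_idx idx_lt pt_mono len_pos t_mono)
open Pool.Agent.Helper82.FK (e)
open Pool.Agent.Helper18.GP (gp nm)
open Pool.Agent.Helper87.GP (Z fz cut S mem_S Z_abs Z_last cut_nonneg cut_le_one cut_le continuous_cut continuous_fz pow_lip)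

namespace Pool.Agent.Helper44.GE

open Pool.Agent.GE

/-- powers -/
theorem alg_one {a b ε C X Cl Cm Cε C₁ κ q p : ℝ} (ha : 0 < a) (hb : 0 < b) (hε : 0 < ε) (hCl : 0 < Cl) (hCε : 0 < Cε)
    {Hb J t : ℕ} (hX : X = ((Hb : ℝ) + 1) * Cε * Cl * ((1 + ε) * b) ^ t * a ^ ((J : ℝ) / 2)) :
    (Cm * (a ^ (q * C) * X ^ p)) * (C₁ * (2 * a ^ (((t : ℝ) - J) / 2) * a ^ (-(t : ℝ))) ^ κ) =
      (Cm * a ^ (q * C) * Cl ^ p * 2 ^ κ) * (C₁ * (((Hb : ℝ) + 1) * Cε) ^ p) *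
        ((((1 + ε) * b) ^ p * a ^ (-κ / 2)) ^ t * (a ^ (p / 2 - κ / 2)) ^ J) := by
  have hy : 0 < (1 + ε) * b := by positivity
  have e1 : X ^ p = (((Hb : ℝ) + 1) * Cε) ^ p * Cl ^ p * (((1 + ε) * b) ^ p) ^ t * a ^ (p * ((J : ℝ) / 2)) := by
    rw [hX, Real.mul_rpow (by positivity) (by positivity), Real.mul_rpow (by positivity) (by positivity),
      Real.mul_rpow (by positivity) hCl.le]
    congr 1
    · congr 1
      rw [← Real.rpow_natCast, ← Real.rpow_mul hy.le, mul_comm (t : ℝ), Real.rpow_mul hy.le, Real.rpow_natCast]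
    · rw [← Real.rpow_mul ha.le, mul_comm p]
  have e2 : (2 * a ^ (((t : ℝ) - J) / 2) * a ^ (-(t : ℝ))) ^ κ = 2 ^ κ * a ^ ((((t : ℝ) - J) / 2 + -(t : ℝ)) * κ) := by
    rw [mul_assoc, ← Real.rpow_add ha, Real.mul_rpow (by norm_num) (by positivity), ← Real.rpow_mul ha.le]
  have e3 : (((1 + ε) * b) ^ p * a ^ (-κ / 2)) ^ t = (((1 + ε) * b) ^ p) ^ t * a ^ (-κ / 2 * t) := by
    rw [mul_pow, ← Real.rpow_natCast (a ^ (-κ / 2)), ← Real.rpow_mul ha.le]
  have e4 : (a ^ (p / 2 - κ / 2)) ^ J = a ^ ((p / 2 - κ / 2) * J) := by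
    rw [← Real.rpow_natCast, ← Real.rpow_mul ha.le]
  have e5 : a ^ (p * ((J : ℝ) / 2)) * a ^ ((((t : ℝ) - J) / 2 + -(t : ℝ)) * κ) =
      a ^ (-κ / 2 * t) * a ^ ((p / 2 - κ / 2) * J) := by
    rw [← Real.rpow_add ha, ← Real.rpow_add ha]
    congr 1
    ring
  rw [e1, e2, e3, e4]
  linear_combination (Cm * a ^ (q * C) * Cl ^ p * 2 ^ κ) * (C₁ * (((Hb : ℝ) + 1) * Cε) ^ p) * (((1 + ε) * b) ^ p) ^ t * e5

/-- choice of the parameters -/
theorem choose_eps {a b W q : ℝ} (ha : 1 < a) (hab : a < b) (hW : 0 < W) (hWq : W < a ^ q) :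
    ∃ ε : ℝ, 0 < ε ∧ ε ≤ 1 ∧ a < b / (1 + ε) ∧
      W * (((1 + ε) * b) ^ (q * (1 + ε) * (Real.log a / Real.log (b / (1 + ε)))) * a ^ (-(4 * q) / 2)) < 1 := by
  have ha0 : 0 < a := by linarith
  have hb0 : 0 < b := by linarith
  have hlb : 0 < Real.log b := Real.log_pos (ha.trans hab)
  have hlW : Real.log W < q * Real.log a := by
    have := Real.log_lt_log hW hWq
    rwa [Real.log_rpow ha0] at this
  set F : ℝ → ℝ := fun ε => Real.log W + q * (1 + ε) * (Real.log a / Real.log (b / (1 + ε))) * Real.log ((1 + ε) * b) -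
    2 * q * Real.log a with hF
  have h0 : F 0 < 0 := by
    simp only [hF, add_zero, div_one, one_mul, mul_one]
    have : q * (Real.log a / Real.log b) * Real.log b = q * Real.log a := by field_simp
    rw [this]
    linarith
  have hcont : ContinuousAt F 0 := by
    have h1 : ContinuousAt (fun ε : ℝ => b / (1 + ε)) 0 :=
      continuousAt_const.div (continuousAt_const.add continuousAt_id) (by norm_num)
    have h2 : ContinuousAt (fun ε : ℝ => Real.log (b / (1 + ε))) 0 :=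
      h1.log (by simp [hb0.ne'])
    have h3 : ContinuousAt (fun ε : ℝ => Real.log ((1 + ε) * b)) 0 :=
      ((continuousAt_const.add continuousAt_id).mul continuousAt_const).log (by simp [hb0.ne'])
    have h4 : ContinuousAt (fun ε : ℝ => Real.log a / Real.log (b / (1 + ε))) 0 :=
      continuousAt_const.div h2 (by simp [hlb.ne'])
    exact (continuousAt_const.add (((continuousAt_const.mul (continuousAt_const.add continuousAt_id)).mul h4).mul h3)).sub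
      continuousAt_const
  have hev1 : ∀ᶠ ε in 𝓝 (0 : ℝ), F ε < 0 := hcont.eventually (gt_mem_nhds h0)
  have hev2 : ∀ᶠ ε in 𝓝 (0 : ℝ), a < b / (1 + ε) := by
    have h1 : ContinuousAt (fun ε : ℝ => b / (1 + ε)) 0 :=
      continuousAt_const.div (continuousAt_const.add continuousAt_id) (by norm_num)
    exact h1.eventually (lt_mem_nhds (by simpa using hab))
  have hev3 : ∀ᶠ ε in 𝓝[>] (0 : ℝ), ε ∈ Ioo (0 : ℝ) 1 := Ioo_mem_nhdsGT one_pos
  obtain ⟨ε, ⟨h1, h2⟩, h3⟩ := (((hev1.and hev2).filter_mono nhdsWithin_le_nhds).and hev3).exists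
  refine ⟨ε, h3.1, h3.2.le, h2, ?_⟩
  have hy : 0 < (1 + ε) * b := by have := h3.1; positivity
  have h4 : W * (((1 + ε) * b) ^ (q * (1 + ε) * (Real.log a / Real.log (b / (1 + ε)))) * a ^ (-(4 * q) / 2)) =
      Real.exp (F ε) := by
    conv_lhs => rw [← Real.exp_log hW, Real.rpow_def_of_pos hy, Real.rpow_def_of_pos ha0]
    rw [← Real.exp_add, ← Real.exp_add]
    congr 1
    simp only [hF]
    ring
  rw [h4]
  exact Real.exp_lt_one_iff.2 h1

theorem nm_ge_one {H : ℕ} {c : ℤ → ℂ} (hc : c 0 = 1) : 1 ≤ nm H c := by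
  have h1 : ‖c 0‖ ≤ nm H c :=
    Finset.single_le_sum (f := fun h => ‖c h‖) (fun _ _ => norm_nonneg _)
      (by rw [Finset.mem_Icc]; constructor <;> omega)
  rwa [hc, norm_one] at h1

/-- E7, from E1 -/
theorem crit_mass_of {a b : ℝ} (ha : 1 < a) (hab : a < b) {H : ℕ} (hE1 : SubE a b H) {c : ℤ → ℂ} (hc : c 0 = 1)
    (hW : nm H c < a ^ (kE a H)) :
    ∃ α lam : ℝ, a < α ∧ α < b ∧ 0 < lam ∧ lam < 1 ∧ ∃ Φ : ℕ → ℝ, (∀ n, 0 < Φ n) ∧
      ∀ (T : Tr) (m : ℕ → ℕ → ℝ) (nk : ℕ → ℕ) (Cl Cm : ℝ), Ms T m → (∀ k i, i ≤ T.N k → T.t k i ∈ Icc α b) → nk 0 = 0 →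
        Tendsto nk atTop atTop → (∀ k, nk k ≤ nk (k + 1)) → (∀ ε > 0, ∃ C : ℝ, ∀ k, (nk (k + 1) : ℝ) ≤ (1 + ε) * nk k + C) →
        (∀ k i, i < T.N k → T.len k i ≤ Cl * (α ^ (nk k))⁻¹) →
        (∀ k i, i < T.N k → m k i ≤ Cm * T.len k i * a ^ (kE a H * nk k)) →
        ∃ Ψ : ℝ, 0 < Ψ ∧ ∀ (Hb : ℕ) (h : ℤ), H + |h| ≤ Hb → ∀ j J L : ℕ,
          ∫⁻ w in Ico (0 : ℝ) 1, ENNReal.ofReal (∑ t ∈ Finset.range L, QE a H Hb c h j J t (pt T m w)) ≤
            ENNReal.ofReal (Ψ * Φ Hb * lam ^ J) := by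
  have ha0 : 0 < a := by linarith
  have hb0 : 0 < b := by linarith
  have hla : 0 < Real.log a := Real.log_pos ha
  set W := nm H c with hWd
  have hW1 : 1 ≤ W := nm_ge_one hc
  have hW0 : 0 < W := by linarith
  set κ : ℝ := 1 / ((KE a H : ℝ) + 1) with hκ
  have hK0 : (0 : ℝ) ≤ (KE a H : ℝ) := Nat.cast_nonneg _
  have hκ0 : 0 < κ := by positivity
  have hκ1 : κ ≤ 1 := by rw [hκ, div_le_one (by positivity)]; linarith
  set q : ℝ := kE a H with hq
  have hqκ : q = κ / 4 := by rw [hq, hκ, kE]; field_simp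
  have hq0 : 0 < q := by rw [hqκ]; positivity
  obtain ⟨ε, hε, hε1, haα, hWr⟩ := choose_eps ha hab hW0 hW
  set α : ℝ := b / (1 + ε) with hα
  have hα1 : 1 < α := ha.trans haα
  have hlα : 0 < Real.log α := Real.log_pos hα1
  have hαb : α < b := by
    rw [hα, div_lt_iff₀ (by positivity)]
    nlinarith
  set p : ℝ := q * (1 + ε) * (Real.log a / Real.log α) with hp
  have hp0 : 0 ≤ p := by positivity
  have hlr : Real.log a / Real.log α ≤ 1 := by
    rw [div_le_one hlα]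
    exact Real.log_le_log ha0 haα.le
  have hpκ : p ≤ κ / 2 := by
    have h1 : p ≤ q * (1 + ε) * 1 := by rw [hp]; gcongr
    rw [mul_one] at h1
    rw [hqκ] at h1
    nlinarith
  have e4q : -(4 * q) / 2 = -κ / 2 := by rw [hqκ]; ring
  rw [e4q] at hWr
  set rt : ℝ := ((1 + ε) * b) ^ p * a ^ (-κ / 2) with hrt
  set rJ : ℝ := a ^ (p / 2 - κ / 2) with hrJ
  have hrt0 : 0 < rt := by positivity
  have hrJ0 : 0 < rJ := by positivity
  have hrJ1 : rJ < 1 := Real.rpow_lt_one_of_one_lt_of_neg ha (by linarith)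
  have h1b : 1 ≤ (1 + ε) * b := by nlinarith [ha.trans hab]
  have hhalf : a ^ (-(1 : ℝ) / 2) ≤ a ^ (-κ / 2) := Real.rpow_le_rpow_of_exponent_le ha.le (by linarith)
  have hrt2 : a ^ (-(1 : ℝ) / 2) ≤ rt := by
    have h2 : 1 ≤ ((1 + ε) * b) ^ p := Real.one_le_rpow h1b hp0
    have h3 : 0 < a ^ (-κ / 2) := Real.rpow_pos_of_pos ha0 _
    rw [hrt]
    nlinarith
  have hrJ2 : a ^ (-(1 : ℝ) / 2) ≤ rJ := by
    refine hhalf.trans ?_
    rw [hrJ]
    exact Real.rpow_le_rpow_of_exponent_le ha.le (by linarith)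
  obtain ⟨Cε, hCε1, hCε⟩ := sq_growth hε
  choose C₁ hC₁0 hC₁ using fun Hb : ℕ => hE1 (Hb : ℝ)
  refine ⟨α, rJ, haα, hαb, hrJ0, hrJ1, fun Hb => max 1 (C₁ Hb) * (((Hb : ℝ) + 1) * Cε) ^ p, fun n => by positivity, ?_⟩
  intro T m nk Cl Cm hm hT h0 hn _ hr hlen hmass
  obtain ⟨C, hC⟩ := hr ε hε
  set C' := max C 0 with hC'
  set Cl' := max Cl 1 with hCl'
  set Cm' := max Cm 0 with hCm'
  have hC'0 : 0 ≤ C' := le_max_right _ _
  have hCl1 : 1 ≤ Cl' := le_max_right _ _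
  have hCm0 : 0 ≤ Cm' := le_max_right _ _
  have hr' : ∀ k, (nk (k + 1) : ℝ) ≤ (1 + ε) * nk k + C' := fun k => (hC k).trans (by gcongr; exact le_max_left _ _)
  have hlen' : ∀ k i, i < T.N k → T.len k i ≤ Cl' * (α ^ (nk k))⁻¹ := fun k i hi => (hlen k i hi).trans (by
    have : 0 < (α ^ (nk k))⁻¹ := by positivity
    exact mul_le_mul_of_nonneg_right (le_max_left _ _) this.le)
  have hmass' : ∀ k i, i < T.N k → m k i ≤ Cm' * T.len k i * a ^ (kE a H * nk k) := fun k i hi => (hmass k i hi).trans (by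
    have h1 := (len_pos T k hi).le
    have : 0 < a ^ (kE a H * nk k) := by positivity
    gcongr
    exact le_max_left _ _)
  set P : ℝ := Cm' * a ^ (q * C') * Cl' ^ p * 2 ^ κ with hP
  have hP0 : 0 ≤ P := by positivity
  refine ⟨W * (P + 1) / (1 - W * rt), by
    have : 0 < 1 - W * rt := by linarith
    positivity, ?_⟩
  intro Hb h hHb j J L
  set Ph : ℝ := max 1 (C₁ Hb) * (((Hb : ℝ) + 1) * Cε) ^ p with hPh
  have hKb : (1 : ℝ) ≤ (Hb : ℝ) + 1 := by linarith [(Nat.cast_nonneg Hb : (0 : ℝ) ≤ Hb)]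
  have hPh1 : 1 ≤ Ph := by
    have h1 : 1 ≤ (((Hb : ℝ) + 1) * Cε) ^ p := Real.one_le_rpow (one_le_mul_of_one_le_of_one_le hKb hCε1) hp0
    exact one_le_mul_of_one_le_of_one_le (le_max_left _ _) h1
  -- one string
  have hstr : ∀ t : ℕ, ∀ β ∈ Z Hb t, ENNReal.ofReal (wE H c h j β) *
      ∫⁻ w in Ico (0 : ℝ) 1, ENNReal.ofReal (cut ((a ^ J)⁻¹) (fz β (pt T m w))) ≤
      ENNReal.ofReal (wE H c h j β * ((P + 1) * Ph * (rt ^ t * rJ ^ J))) := by
    intro t β hβ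
    by_cases hw : wE H c h j β = 0
    · rw [hw]; simp
    rw [ENNReal.ofReal_mul (wE_nonneg H c h j β)]
    refine mul_le_mul_right ?_ _
    refine (string_int (X := ((Hb : ℝ) + 1) * Cε * Cl' * ((1 + ε) * b) ^ t * a ^ ((J : ℝ) / 2)) ha hab haα.le hCε hCε1
      hε hC'0 hCl1 hCm0 (hC₁ Hb) hm hT h0 hn hr' hlen' hmass' hβ hw rfl).trans ?_
    rw [← ENNReal.ofReal_mul (by positivity), ← ENNReal.ofReal_add (by have := (hC₁0 Hb).le; positivity) (by positivity)]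
    refine ENNReal.ofReal_le_ofReal ?_
    rw [alg_one (κ := κ) (q := q) (p := p) (Cm := Cm') (C := C') (C₁ := C₁ Hb) ha0 hb0 hε (by linarith) (by linarith) rfl]
    have h2 : a ^ (-((t : ℝ) + J) / 2) ≤ rt ^ t * rJ ^ J := by
      have h3 : a ^ (-((t : ℝ) + J) / 2) = (a ^ (-(1 : ℝ) / 2)) ^ t * (a ^ (-(1 : ℝ) / 2)) ^ J := by
        rw [← pow_add, ← Real.rpow_natCast, ← Real.rpow_mul ha0.le]
        congr 1
        push_cast
        ring
      rw [h3]
      have h4 : 0 < a ^ (-(1 : ℝ) / 2) := by positivity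
      gcongr
    have h3 : C₁ Hb * (((Hb : ℝ) + 1) * Cε) ^ p ≤ Ph := by
      rw [hPh]
      gcongr
      exact le_max_right _ _
    have h4 : 0 < rt ^ t * rJ ^ J := by positivity
    calc P * (C₁ Hb * (((Hb : ℝ) + 1) * Cε) ^ p) * (rt ^ t * rJ ^ J) + a ^ (-((t : ℝ) + J) / 2)
        ≤ P * Ph * (rt ^ t * rJ ^ J) + 1 * Ph * (rt ^ t * rJ ^ J) := by
          refine add_le_add (by gcongr) (h2.trans ?_)
          rw [one_mul]
          exact le_mul_of_one_le_left h4.le hPh1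
      _ = _ := by ring
  -- one length
  have hmeas : ∀ (t : ℕ) (β : Fin (t + 1) → ℤ), Measurable fun w : ℝ => ENNReal.ofReal (cut ((a ^ J)⁻¹) (fz β (pt T m w))) :=
    fun t β => ((((continuous_cut (by positivity)).comp (continuous_fz β)).measurable).comp
      (pt_mono (T := T) (m := m)).measurable).ennreal_ofReal
  have hQ0 : ∀ (t : ℕ) (x : ℝ), 0 ≤ QE a H Hb c h j J t x := fun t x => by
    unfold QE
    exact Finset.sum_nonneg fun β _ => mul_nonneg (wE_nonneg H c h j β) (cut_nonneg (by positivity) _)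
  have hQ : ∀ (t : ℕ) (w : ℝ), ENNReal.ofReal (QE a H Hb c h j J t (pt T m w)) =
      ∑ β ∈ Z Hb t, ENNReal.ofReal (wE H c h j β) * ENNReal.ofReal (cut ((a ^ J)⁻¹) (fz β (pt T m w))) := by
    intro t w
    have h1 : QE a H Hb c h j J t (pt T m w) = ∑ β ∈ Z Hb t, wE H c h j β * cut ((a ^ J)⁻¹) (fz β (pt T m w)) := rfl
    rw [h1, ENNReal.ofReal_sum_of_nonneg fun β _ => mul_nonneg (wE_nonneg H c h j β) (cut_nonneg (by positivity) _)]
    exact Finset.sum_congr rfl fun β _ => ENNReal.ofReal_mul (wE_nonneg H c h j β)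
  have hlen1 : ∀ t : ℕ, ∫⁻ w in Ico (0 : ℝ) 1, ENNReal.ofReal (QE a H Hb c h j J t (pt T m w)) ≤
      ENNReal.ofReal (W * (P + 1) * Ph * rJ ^ J * (W * rt) ^ t) := by
    intro t
    simp_rw [hQ]
    rw [lintegral_finsetSum _ fun β _ => (hmeas t β).const_mul _]
    have h1 : ∀ β ∈ Z Hb t, ∫⁻ w in Ico (0 : ℝ) 1, ENNReal.ofReal (wE H c h j β) *
        ENNReal.ofReal (cut ((a ^ J)⁻¹) (fz β (pt T m w))) ≤
        ENNReal.ofReal (wE H c h j β * ((P + 1) * Ph * (rt ^ t * rJ ^ J))) := by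
      intro β hβ
      rw [lintegral_const_mul _ (hmeas t β)]
      exact hstr t β hβ
    refine (Finset.sum_le_sum h1).trans ?_
    rw [← ENNReal.ofReal_sum_of_nonneg fun β _ => mul_nonneg (wE_nonneg H c h j β) (by positivity), ← Finset.sum_mul]
    refine ENNReal.ofReal_le_ofReal ?_
    calc (∑ β ∈ Z Hb t, wE H c h j β) * ((P + 1) * Ph * (rt ^ t * rJ ^ J)) ≤
        W ^ (t + 1) * ((P + 1) * Ph * (rt ^ t * rJ ^ J)) :=
          mul_le_mul_of_nonneg_right (sum_wE H Hb c h j t) (by positivity)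
      _ = _ := by rw [mul_pow, pow_succ]; ring
  have hsum : ∀ w : ℝ, ENNReal.ofReal (∑ t ∈ Finset.range L, QE a H Hb c h j J t (pt T m w)) =
      ∑ t ∈ Finset.range L, ENNReal.ofReal (QE a H Hb c h j J t (pt T m w)) := fun w =>
    ENNReal.ofReal_sum_of_nonneg fun t _ => hQ0 t _
  simp_rw [hsum]
  have hmeasQ : ∀ t : ℕ, Measurable fun w : ℝ => ENNReal.ofReal (QE a H Hb c h j J t (pt T m w)) := by
    intro t
    simp_rw [hQ]
    exact Finset.measurable_sum _ fun β _ => (hmeas t β).const_mul _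
  rw [lintegral_finsetSum _ fun t _ => hmeasQ t]
  refine (Finset.sum_le_sum fun t _ => hlen1 t).trans ?_
  have hWrt0 : 0 ≤ W * rt := by positivity
  rw [← ENNReal.ofReal_sum_of_nonneg fun t _ => by positivity, ← Finset.mul_sum]
  refine ENNReal.ofReal_le_ofReal ?_
  have hgeo : ∑ t ∈ Finset.range L, (W * rt) ^ t ≤ (1 - W * rt)⁻¹ := by
    rw [← tsum_geometric_of_lt_one hWrt0 hWr]
    exact (summable_geometric_of_lt_one hWrt0 hWr).sum_le_tsum _ fun t _ => pow_nonneg hWrt0 t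
  have hZ0 : 0 ≤ W * (P + 1) * Ph * rJ ^ J := by positivity
  have e9 : W * (P + 1) / (1 - W * rt) * Ph * rJ ^ J = W * (P + 1) * Ph * rJ ^ J * (1 - W * rt)⁻¹ := by
    rw [div_eq_mul_inv]; ring
  rw [e9]
  exact mul_le_mul_of_nonneg_left hgeo hZ0

end Pool.Agent.Helper44.GE
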