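import Pool.Agent.Helper87.GE.Defs
import Pool.Agent.Helper87.GP.AE
import Pool.Agent.Helper18.KD.LowerMass

/-!
# GE, block E7: the points at which the criterion fails have small mass
-/

set_option autoImplicit false
open MeasureTheory Set Filter Topology
open Pool.Agent.Helper78.KD
open Pool.Agent.Helper18.KD (par idx pt pt_mem vol_idx idx_lt pt_mono len_pos t_mono)
open Pool.Agent.Helper82.FK (e)
open Pool.Agent.Helper18.GP (gp nm)
open Pool.Agent.Helper87.GP (Z fz cut S mem_S Z_abs Z_last cut_nonneg cut_le_one cut_le continuous_cut continuous_fz pow_lip)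

namespace Pool.Agent.Helper44.GE

open Pool.Agent.GE

/-! ### weights -/

theorem sum_ce (H : ℕ) (c : ℤ → ℂ) (h : ℤ) (j i : ℕ) (A : Finset ℤ) : ∑ k ∈ A, ‖ce H c h j i k‖ ≤ nm H c := by
  classical
  unfold ce nm
  by_cases hij : i = j
  · simp only [if_pos hij]
    have h1 : ∑ k ∈ A, ‖(if k - h ∈ Finset.Icc (-(H : ℤ)) H then c (k - h) else 0)‖
        = ∑ k ∈ A.filter (fun k => k - h ∈ Finset.Icc (-(H : ℤ)) H), ‖c (k - h)‖ := by
      rw [Finset.sum_filter]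
      refine Finset.sum_congr rfl fun k _ => ?_
      split_ifs <;> simp
    rw [h1]
    have h2 : ∑ k ∈ A.filter (fun k => k - h ∈ Finset.Icc (-(H : ℤ)) H), ‖c (k - h)‖
        = ∑ l ∈ (A.filter (fun k => k - h ∈ Finset.Icc (-(H : ℤ)) H)).image (fun k => k - h), ‖c l‖ := by
      rw [Finset.sum_image]
      intro x _ y _ hxy
      simpa using hxy
    rw [h2]
    refine Finset.sum_le_sum_of_subset_of_nonneg ?_ fun _ _ _ => norm_nonneg _
    intro l hl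
    obtain ⟨k, hk, rfl⟩ := Finset.mem_image.1 hl
    exact (Finset.mem_filter.1 hk).2
  · simp only [if_neg hij]
    have h1 : ∑ k ∈ A, ‖(if k ∈ Finset.Icc (-(H : ℤ)) H then c k else 0)‖
        = ∑ k ∈ A.filter (fun k => k ∈ Finset.Icc (-(H : ℤ)) H), ‖c k‖ := by
      rw [Finset.sum_filter]
      refine Finset.sum_congr rfl fun k _ => ?_
      split_ifs <;> simp
    rw [h1]
    refine Finset.sum_le_sum_of_subset_of_nonneg ?_ fun _ _ _ => norm_nonneg _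
    intro l hl
    exact (Finset.mem_filter.1 hl).2

/-- weight of a string -/
noncomputable def wE (H : ℕ) (c : ℤ → ℂ) (h : ℤ) (j : ℕ) {t : ℕ} (b : Fin (t + 1) → ℤ) : ℝ :=
  ∏ i : Fin (t + 1), ‖ce H c h j i (b i)‖

theorem wE_nonneg (H : ℕ) (c : ℤ → ℂ) (h : ℤ) (j : ℕ) {t : ℕ} (b : Fin (t + 1) → ℤ) : 0 ≤ wE H c h j b :=
  Finset.prod_nonneg fun _ _ => norm_nonneg _

theorem sum_wE (H Hb : ℕ) (c : ℤ → ℂ) (h : ℤ) (j t : ℕ) : ∑ b ∈ Z Hb t, wE H c h j b ≤ nm H c ^ (t + 1) := by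
  unfold Z wE
  rw [← Finset.prod_univ_sum (S Hb t) (fun (i : Fin (t + 1)) k => ‖ce H c h j i k‖)]
  calc _ ≤ ∏ _i : Fin (t + 1), nm H c := by
        refine Finset.prod_le_prod (fun i _ => Finset.sum_nonneg fun _ _ => norm_nonneg _) fun i _ => ?_
        exact sum_ce H c h j i _
    _ = _ := by simp

/-- the entries of a string with a nonzero weight -/
theorem wE_small {H : ℕ} {c : ℤ → ℂ} {h : ℤ} {j t : ℕ} {b : Fin (t + 1) → ℤ} (hw : wE H c h j b ≠ 0)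
    (i : Fin (t + 1)) (hi : (i : ℕ) ≠ j) : |(b i : ℝ)| ≤ H := by
  have h1 : ‖ce H c h j i (b i)‖ ≠ 0 := (Finset.prod_ne_zero_iff.1 hw) i (Finset.mem_univ i)
  unfold ce at h1
  rw [if_neg hi] at h1
  by_cases h2 : b i ∈ Finset.Icc (-(H : ℤ)) H
  · rw [Finset.mem_Icc] at h2
    rw [abs_le]
    exact ⟨by exact_mod_cast h2.1, by exact_mod_cast h2.2⟩
  · rw [if_neg h2] at h1
    simp at h1

/-! ### the polynomial of a string -/

theorem fz_diff {R : ℝ} (hR : 1 ≤ R) {Hb t : ℕ} {b : Fin (t + 1) → ℤ} (hb : ∀ i, |(b i : ℝ)| ≤ Hb) {x y : ℝ}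
    (hx0 : 0 ≤ x) (hx : x ≤ R) (hy0 : 0 ≤ y) (hy : y ≤ R) :
    |fz b x - fz b y| ≤ Hb * ((t : ℝ) + 1) ^ 2 * R ^ t * |x - y| := by
  unfold fz
  rw [← Finset.sum_sub_distrib]
  refine (Finset.abs_sum_le_sum_abs _ _).trans ?_
  have h1 : ∀ i ∈ (Finset.univ : Finset (Fin (t + 1))), |(b i : ℝ) * x ^ (i : ℕ) - (b i : ℝ) * y ^ (i : ℕ)| ≤
      Hb * ((t : ℝ) + 1) * R ^ t * |x - y| := by
    intro i _
    rw [← mul_sub, abs_mul]
    have h2 := pow_lip (i : ℕ) hR hx0 hx hy0 hy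
    have h3 : (i : ℕ) ≤ t := Nat.lt_succ_iff.1 i.2
    have h4 : ((i : ℕ) : ℝ) ≤ (t : ℝ) + 1 := by
      have : ((i : ℕ) : ℝ) ≤ t := by exact_mod_cast h3
      linarith
    have h5 : R ^ (i : ℕ) ≤ R ^ t := pow_le_pow_right₀ hR h3
    have hR0 : 0 < R := by linarith
    calc |(b i : ℝ)| * |x ^ (i : ℕ) - y ^ (i : ℕ)| ≤ Hb * (((i : ℕ) : ℝ) * R ^ (i : ℕ) * |x - y|) :=
          mul_le_mul (hb i) h2 (abs_nonneg _) (Nat.cast_nonneg _)
      _ ≤ Hb * (((t : ℝ) + 1) * R ^ t * |x - y|) := by gcongr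
      _ = _ := by ring
  refine (Finset.sum_le_sum h1).trans (le_of_eq ?_)
  rw [Finset.sum_const, Finset.card_univ, Fintype.card_fin, nsmul_eq_mul]
  push_cast
  ring

theorem sq_growth {ε : ℝ} (hε : 0 < ε) : ∃ C : ℝ, 1 ≤ C ∧ ∀ t : ℕ, ((t : ℝ) + 1) ^ 2 ≤ C * (1 + ε) ^ t := by
  set u := √(1 + ε) - 1 with hu
  have h1 : 1 < √(1 + ε) := by
    rw [Real.lt_sqrt (by norm_num)]
    linarith
  have hu0 : 0 < u := by rw [hu]; linarith
  have h2 : (1 + u) ^ 2 = 1 + ε := by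
    rw [hu, add_sub_cancel, Real.sq_sqrt (by linarith)]
  set D := max 1 (1 / u) with hD
  have hD1 : 1 ≤ D := le_max_left _ _
  have hD2 : 1 ≤ D * u := by
    have h3 : 1 / u ≤ D := le_max_right _ _
    rw [div_le_iff₀ hu0] at h3
    exact h3
  refine ⟨D ^ 2, by nlinarith, fun t => ?_⟩
  have h3 : 1 + (t : ℝ) * u ≤ (1 + u) ^ t := one_add_mul_le_pow (by linarith) t
  have h4 : (t : ℝ) + 1 ≤ D * (1 + u) ^ t := by
    have h5 : (t : ℝ) + 1 ≤ D * (1 + t * u) := by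
      have : (t : ℝ) * 1 ≤ t * (D * u) := mul_le_mul_of_nonneg_left hD2 (Nat.cast_nonneg t)
      nlinarith
    exact h5.trans (mul_le_mul_of_nonneg_left h3 (by linarith))
  calc ((t : ℝ) + 1) ^ 2 ≤ (D * (1 + u) ^ t) ^ 2 := pow_le_pow_left₀ (by positivity) h4 2
    _ = D ^ 2 * ((1 + u) ^ 2) ^ t := by ring
    _ = _ := by rw [h2]

/-! ### measures -/

theorem Ms.vol {T : Tr} {m : ℕ → ℕ → ℝ} (hm : Ms T m) (k : ℕ) (A : Finset ℕ) :
    volume {w : ℝ | w ∈ Ico (0 : ℝ) 1 ∧ idx T m k w ∈ A} ≤ ∑ i ∈ A, ENNReal.ofReal (m k i) := by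
  have h1 : {w : ℝ | w ∈ Ico (0 : ℝ) 1 ∧ idx T m k w ∈ A} ⊆
      ⋃ i ∈ A, {w : ℝ | w ∈ Ico (0 : ℝ) 1 ∧ idx T m k w = i} := by
    rintro w ⟨hw, hi⟩
    simp only [Set.mem_iUnion]
    exact ⟨_, hi, hw, rfl⟩
  refine (measure_mono h1).trans ((measure_biUnion_finset_le _ _).trans ?_)
  exact Finset.sum_le_sum fun i _ => vol_idx hm.zero hm.sum k i

theorem sum_len_le (T : Tr) (k : ℕ) {A : Finset ℕ} (hA : A ⊆ Finset.range (T.N k)) {G : Set ℝ}
    (hG : ∀ i ∈ A, T.cell k i ⊆ G) : ∑ i ∈ A, ENNReal.ofReal (T.len k i) ≤ volume G := by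
  have h1 : ∀ i ∈ A, ENNReal.ofReal (T.len k i) = volume (Ico (T.t k i) (T.t k (i + 1))) := by
    intro i _
    rw [Real.volume_Ico]; rfl
  rw [Finset.sum_congr rfl h1, ← measure_biUnion_finset]
  · refine measure_mono ?_
    intro x hx
    simp only [Set.mem_iUnion] at hx
    obtain ⟨i, hi, hx⟩ := hx
    exact hG i hi ⟨hx.1, hx.2.le⟩
  · intro i hi j hj hij
    rw [Finset.mem_coe] at hi hj
    have hi' := Finset.mem_range.1 (hA hi)
    have hj' := Finset.mem_range.1 (hA hj)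
    rw [Function.onFun, Set.disjoint_left]
    intro x hx hx'
    rcases lt_or_gt_of_ne hij with h2 | h2
    · have := t_mono T k (show i + 1 ≤ j by omega) hj'.le
      linarith [hx.2, hx'.1]
    · have := t_mono T k (show j + 1 ≤ i by omega) hi'.le
      linarith [hx.1, hx'.2]
  · intro i _
    exact measurableSet_Ico

/-- the mass of a sublevel set against its length -/
theorem mass_sub {T : Tr} {m : ℕ → ℕ → ℝ} (hm : Ms T m) (k : ℕ) {f : ℝ → ℝ} {τ E : ℝ} (hE : 0 ≤ E) {G : Set ℝ}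
    (hcell : ∀ i < T.N k, (∃ x ∈ T.cell k i, |f x| ≤ τ) → T.cell k i ⊆ G)
    (hmass : ∀ i < T.N k, m k i ≤ E * T.len k i) :
    volume {w : ℝ | w ∈ Ico (0 : ℝ) 1 ∧ |f (pt T m w)| ≤ τ} ≤ ENNReal.ofReal E * volume G := by
  classical
  set A := (Finset.range (T.N k)).filter (fun i => ∃ x ∈ T.cell k i, |f x| ≤ τ) with hA
  have h1 : {w : ℝ | w ∈ Ico (0 : ℝ) 1 ∧ |f (pt T m w)| ≤ τ} ⊆ {w : ℝ | w ∈ Ico (0 : ℝ) 1 ∧ idx T m k w ∈ A} := by
    rintro w ⟨hw, hf⟩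
    refine ⟨hw, ?_⟩
    rw [hA, Finset.mem_filter, Finset.mem_range]
    exact ⟨idx_lt k w, pt T m w, pt_mem hm.zero hm.nn hm.sum k hw.1 hw.2, hf⟩
  refine (measure_mono h1).trans ((Ms.vol hm k A).trans ?_)
  have h2 : ∑ i ∈ A, ENNReal.ofReal (m k i) ≤ ∑ i ∈ A, ENNReal.ofReal E * ENNReal.ofReal (T.len k i) := by
    refine Finset.sum_le_sum fun i hi => ?_
    have hi' := Finset.mem_range.1 (Finset.mem_filter.1 hi).1
    rw [← ENNReal.ofReal_mul hE]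
    exact ENNReal.ofReal_le_ofReal (hmass i hi')
  refine h2.trans ?_
  rw [← Finset.mul_sum]
  refine mul_le_mul_right ?_ _
  refine sum_len_le T k (Finset.filter_subset _ _) fun i hi => ?_
  have h3 := Finset.mem_filter.1 hi
  exact hcell i (Finset.mem_range.1 h3.1) h3.2

end Pool.Agent.Helper44.GE
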